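import Pool.Agent.Helper45.U4.St2

/-!
# Project U4 (MP_a1f43d_co), module LOW: the lower bound in rank three
-/

set_option autoImplicit false

open Module Classical
open scoped LinearAlgebra.Projectivization

namespace Pool.Agent.Helper75.U4

open Pool.Agent.Helper45.U4 Pool.Agent.Helper53.PB

theorem hLOW (h1 : StLBD) (h2 : StHVY) (h3 : StEXC) : StLOW := by
  intro F V _ _ _ _ φ hφ T hT
  have hF : Finite F := hφ.finF
  have hV : Finite V := Module.finite_of_finite F
  have hs : ∑ y, chi T y = (T.card : ℤ) := sum_chi T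
  have hb : ∀ U, φ.toPolar.Gen U → 1 ≤ tf (chi T) U := fun U hU => block_tf hT hU
  have hsup : Sup φ.toPolar (chi T) := sup_chi hT.1
  obtain ⟨a1, a2⟩ := (h1 φ (chi T) hsup hb).1 hφ
  obtain ⟨b1, b2, -⟩ := h3 φ (chi T) hφ (chi_nonneg T) hsup
  by_contra hcon
  rw [hs] at a1 a2
  have h4 : T.card = 33 ∨ T.card = 34 := by omega
  rcases h4 with h4 | h4
  · exact b1 (a2 (by rw [h4]; norm_num))
  · obtain ⟨X, hX, hX2⟩ := h2 φ (chi T) hφ hsup hb (Or.inl (by rw [hs, h4]; norm_num))
    have e : ∀ U : Submodule F V, tf (fun y => chi T y - del X y) U =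
        tf (chi T) U - if X.rep ∈ U then 1 else 0 := by
      intro U
      rw [tf_sub, tf_del]
    have hg : ∀ U, φ.toPolar.Gen U → 1 ≤ tf (fun y => chi T y - del X y) U := by
      intro U hU
      rw [e]
      by_cases hXU : X.rep ∈ U
      · rw [if_pos hXU]
        have := hX2 U hU hXU
        linarith
      · rw [if_neg hXU, sub_zero]
        exact hb U hU
    have hsg : Sup φ.toPolar (fun y => chi T y - del X y) := hsup.sub (sup_del hX)
    have hsum : ∑ y, (chi T y - del X y) = 33 := by
      rw [Finset.sum_sub_distrib, hs, sum_del, h4]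
      norm_num
    have h5 := ((h1 φ _ hsg hg).1 hφ).2 hsum
    refine b2 X hX fun U hU => ?_
    have h6 := h5 U hU
    rw [e] at h6
    linarith

end Pool.Agent.Helper75.U4
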